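import Pool.Agent.H34CP.Gr.Crit

/-!
# The critical pair has no triangle of edges of weight one at `x` (MP_472c72_co)
-/

namespace Pool.Agent.H34CP.Gr

open Finset
open scoped Classical

universe u

namespace Pair

variable {E : Type u}

theorem no_digon [Fintype E] (P : Pair E) (hP : P.Crit) (hN : P.Conn) (h1 : P.q0 ≠ P.p0)
    (h2 : P.q0 ≠ P.al P.p0) : P.al P.p0 ≠ P.be P.p0 := by
  intro hab
  have hbc : P.be (P.al P.p0) = P.p0 := by rw [hab, P.be_be]
  have hA : P.Alt (fun v => P.cl v = P.cl P.p0 ∧ v ≠ P.p0 ∧ v ≠ P.al P.p0)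
      (fun v => v = P.p0 ∨ v = P.al P.p0) := by
    refine ⟨?_, ?_, ?_, ?_, ?_, ?_, ?_⟩
    · rintro v ⟨g1, g2, g3⟩
      refine ⟨by rw [P.cl_al, g1], ?_, ?_⟩
      · intro h
        apply g3
        rw [← h, P.al_al]
      · intro h
        apply g2
        rw [← P.al_al v, h, P.al_al]
    · rintro v (rfl | rfl)
      · exact Or.inr hab.symm
      · exact Or.inl hbc
    · rintro ⟨-, h, -⟩
      exact h rfl
    · rintro (h | h)
      · exact h1 h
      · exact h2 h
    · rintro v ⟨-, g2, g3⟩ (h | h)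
      · exact g2 h
      · exact g3 h
    · intro v hv
      have h3 : P.cl v = P.cl P.p0 := by
        rcases hv with h | h | h
        · exact h.1
        · rw [h]
        · rw [h, P.cl_al]
      by_cases h4 : P.mu v = P.p0 ∨ P.mu v = P.al P.p0
      · exact Or.inr h4
      · rw [not_or] at h4
        exact Or.inl ⟨by rw [P.cl_mu, h3], h4.1, h4.2⟩
    · exact ⟨P.p0, Or.inr (Or.inl rfl)⟩
  obtain ⟨Y, y1, y2, y3⟩ := hP _ _ hA
  have hal : ∀ v, P.cl v ≠ P.cl P.p0 → (Y v ↔ Y (P.al v)) := fun v hv => y1 v fun h => hv h.1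
  have hp : Y P.p0 ↔ Y (P.al P.p0) := y1 _ fun h => h.2.1 rfl
  have hbe : ∀ v, Y v ↔ Y (P.be v) := by
    intro v
    by_cases hv : v = P.p0 ∨ v = P.al P.p0
    · rcases hv with rfl | rfl
      · rw [← hab]; exact hp
      · rw [hbc]; exact hp.symm
    · exact y2 v hv
  rcases y3 with ⟨k, k1, k2, k3, k4, k5, k6⟩ | ⟨k1, k2, k3⟩
  · have hk : P.cl k ≠ P.cl P.p0 := by
      intro h
      rw [not_or] at k2
      exact k1 ⟨h, k2⟩
    set S : Finset E := univ.filter fun v => P.cl v ≠ P.cl P.p0 ∧ Y v with hS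
    have e1 : Even S.card := by
      refine Pool.Agent.H66.GD.even_card_of_inv P.al_al P.al_ne S ?_
      intro s hs
      rw [hS, mem_filter] at hs ⊢
      exact ⟨mem_univ _, by rw [P.cl_al]; exact hs.2.1, (hal s hs.2.1).1 hs.2.2⟩
    have e2 : Even (S.erase k).card := by
      refine Pool.Agent.H66.GD.even_card_of_inv P.mu_mu P.mu_ne _ ?_
      intro s hs
      rw [mem_erase, hS, mem_filter] at hs ⊢
      obtain ⟨g1, g2, g3, g4⟩ := hs
      have g5 : s ≠ P.mu k := by
        rintro rfl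
        exact k4 g4
      refine ⟨?_, mem_univ _, by rw [P.cl_mu]; exact g3, (k5 s g1 g5).1 g4⟩
      intro h
      apply g5
      rw [← h, P.mu_mu]
    have e3 : k ∈ S := by
      rw [hS, mem_filter]
      exact ⟨mem_univ _, hk, k3⟩
    have e4 := card_erase_add_one e3
    rw [← e4] at e1
    rw [Nat.even_add_one] at e1
    exact e1 e2
  · have hY2 : ∀ v, P.swap.cl v = P.swap.cl P.p0 → Y v := by
      intro v hv
      exact P.swap.cl_ind (T := Y) (fun z b => (k1 z).1 b) (fun z b => (hbe z).1 b) hv.symm k2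
    have hq : P.swap.cl P.p0 ≠ P.swap.cl P.swap.p0 := fun h => k3 (hY2 _ h.symm)
    obtain ⟨Z, z1, z2, z3, z4, z5⟩ := cutA (crit_swap hP) hq
    have hZ1 : ∀ v, P.cl v = P.cl P.p0 → ¬ Z v := by
      intro v hv
      exact P.cl_ind (T := fun z => ¬ Z z) (fun z b => fun h => b ((z1 z).2 h))
        (fun z b => fun h => b ((z3 z).2 h)) hv.symm z5
    refine absurd (hN (fun v => Y v ∨ ¬ Z v) ?_ ?_ ?_ (Or.inl k2)) ?_
    · rintro v (h | h)
      · exact Or.inl ((k1 v).1 h)
      · exact Or.inr fun h' => h ((z1 v).2 h')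
    · rintro v (h | h)
      · by_cases hv : P.cl v = P.cl P.p0
        · exact Or.inr fun h' => hZ1 v hv ((z3 v).2 h')
        · exact Or.inl ((hal v hv).1 h)
      · exact Or.inr fun h' => h ((z3 v).2 h')
    · rintro v (h | h)
      · exact Or.inl ((hbe v).1 h)
      · by_cases hv : P.swap.cl v = P.swap.cl P.p0
        · exact Or.inl ((hbe v).1 (hY2 v hv))
        · exact Or.inr fun h' => h ((z2 v hv).2 h')
    · rintro (h | h)
      · exact k3 h
      · exact h z4

end Pair

open Pool.Agent.H66.GD Pool.Agent.H21.PT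

variable {V : Type u} [Fintype V] {G : SimpleGraph V} {w : Sym2 V → ℕ} {x y : V}

/-- In a pair without removable circuit and without faithful cover for which `G - xy` has a
faithful cover there is no triangle of edges of weight one at `x`. -/
theorem no_tri_cov (hh : Hyp G w x y) (hcon : ¬ FaithfulCover G w) {n : ℕ}
    {C : Fin n → G.Subgraph} (hc : Cov G w x y C) {b c : V} (h1 : W1 G w x b) (h2 : W1 G w x c)
    (h3 : W1 G w b c) : False := by
  obtain ⟨m, κ, hm, hcol, hr⟩ := exists_col hh hc hcon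
  obtain ⟨P, d⟩ := exists_pair hm hcol (show W2 G w x y from ⟨hh.adj, hh.two⟩)
  have hP := crit_of_dict hh d
  have hN := conn_of_dict hh d
  have hbc : c ≠ b := fun h => G.loopless.irrefl _ (h ▸ h3).1
  have hxb : b ≠ x := fun h => G.loopless.irrefl _ (h ▸ h1).1
  have hxc : c ≠ x := fun h => G.loopless.irrefl _ (h ▸ h2).1
  have hby : b ≠ y := by
    rintro rfl
    exact W12 h1 ⟨hh.adj, hh.two⟩
  have hcy : c ≠ y := by
    rintro rfl
    exact W12 h2 ⟨hh.adj, hh.two⟩
  -- neither `b` nor `c` is a neighbour of `y`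
  have key : ∀ b c : V, W1 G w x b → W1 G w b c → c ≠ x → c ≠ y → ¬ W1 G w y b := by
    intro b c g1 g2 g3 g4 g5
    obtain ⟨p, q, hpq, h⟩ := hm.two b
    have e1 := (h x).1 (W1_symm g1)
    have e2 := (h c).1 g2
    have e3 := (h y).1 (W1_symm g5)
    have e4 : x ≠ y := hh.adj.ne
    rcases e1 with e1 | e1 <;> rcases e2 with e2 | e2 <;> rcases e3 with e3 | e3 <;>
      first
        | exact g3 (e2.trans e1.symm)
        | exact g4 (e2.trans e3.symm)
        | exact e4 (e1.trans e3.symm)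
  have kb := key b c h1 h3 hxc hcy
  have kc := key c b h2 (W1_symm h3) hxb hby
  -- the colour of `bc`
  have hcbc : ¬ κ b c := by
    have e1 := hcol.mid b hxb hby x c hxc.symm (W1_symm h1) h3
    exact e1.1 (hcol.symm _ _ ((hcol.atx _ h1).2 trivial))
  let b' : {v : V // v ≠ x ∧ v ≠ y} := ⟨b, hxb, hby⟩
  let c' : {v : V // v ≠ x ∧ v ≠ y} := ⟨c, hxc, hcy⟩
  have e1 : c' = P.al b' := (d.al b' c').1 (Or.inr ⟨h1, h2, hbc⟩)
  have e2 : c' = P.be b' := (d.be b' c').1 (Or.inl ⟨h3, hcbc⟩)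
  have hq1 : P.q0 ≠ b' := by
    intro h
    apply kb
    have := d.q0
    rw [h] at this
    exact this
  have hq2 : P.q0 ≠ c' := by
    intro h
    apply kc
    have := d.q0
    rw [h] at this
    exact this
  rcases (d.x_nbr b').1 h1 with h | h
  · refine P.no_digon hP hN (by rw [← h]; exact hq1) ?_ ?_
    · rw [← h, ← e1]; exact hq2
    · rw [← h, ← e1, ← e2]
  · have h' : P.p0 = c' := by rw [e1, h, P.al_al]
    refine P.no_digon hP hN (by rw [h']; exact hq2) (by rw [← h]; exact hq1) ?_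
    rw [← h, h', e2, P.be_be]

end Pool.Agent.H34CP.Gr
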